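import Pool.Agent.Q8.PG.Growth

/-!
MP_ee92d8_al, Q2: the infimum over all finite generating sets `S` of the free group of rank
`k ≥ 2` of the growth rate `γ(S)` of the number of primitive conjugacy classes is `1`.
-/

namespace Pool.Agent.Results.MP_ee92d8_al.InfGammaOne

open Pool.Agent.Q8.PG

theorem result (k : ℕ) (hk : 2 ≤ k) :
    ⨅ S : {S : Finset (FreeGroup (Fin k)) // Subgroup.closure (S : Set (FreeGroup (Fin k))) = ⊤},
      gamma (S.1 : Set (FreeGroup (Fin k))) = 1 :=
  main hk

end Pool.Agent.Results.MP_ee92d8_al.InfGammaOne
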